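import Pool.Agent.Lib.MP_fe081e_lc.PT.Tree

/-!
# From `FP` to Mathlib's `TM2ComputableInPolyTime`
-/

set_option linter.unusedSimpArgs false

namespace Pool.Agent.Lib.MP_fe081e_lc.PT

open Turing Function

namespace T

/-- A list as a tree. -/
def ofList {γ : Type*} (c : γ → T) : List γ → T
  | [] => nil
  | a :: l => node (c a) (ofList c l)

@[simp] theorem ofList_nil {γ : Type*} (c : γ → T) : ofList c [] = nil := rfl

@[simp] theorem ofList_cons {γ : Type*} (c : γ → T) (a : γ) (l : List γ) :
    ofList c (a :: l) = node (c a) (ofList c l) := rfl

/-- A natural number in unary. -/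
def unary : ℕ → T
  | 0 => nil
  | n + 1 => node nil (unary n)

@[simp] theorem unary_zero : unary 0 = nil := rfl

@[simp] theorem unary_succ (n : ℕ) : unary (n + 1) = node nil (unary n) := rfl

@[simp] theorem size_unary (n : ℕ) : (unary n).size = n := by
  induction n with
  | zero => rfl
  | succ n ih => simp [ih]; ring

theorem size_ofList_le {γ : Type*} (c : γ → T) (M : ℕ) (hM : ∀ a, (c a).size ≤ M) (l : List γ) :
    (ofList c l).size ≤ (M + 1) * l.length := by
  induction l with
  | nil => simp
  | cons a l ih =>
    have := hM a
    simp only [ofList_cons, size_node, List.length_cons]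
    nlinarith

end T

section Bridge

variable {I O : Type}

/-- The alphabet of the final machine. -/
abbrev Al (I O : Type) := Bool ⊕ I ⊕ O

/-- Convert the reversed input in register `1` to a tree in register `0`. -/
def inConv (O : Type) (c : I → T) : Prog (Al I O) :=
  .whl 1 (.popc 1 fun a => match a with
    | some (.inr (.inl a)) =>
      .seq (pushList 0 ((c a).word (.inl false) (.inl true))) (.push 0 (.inl true))
    | _ => .skip)

theorem below_inConv (c : I → T) : Below (inConv O c) 3 := by
  refine ⟨by omega, by omega, fun a => ?_⟩
  rcases a with _ | (_ | _ | _)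
  · trivial
  · trivial
  · exact ⟨below_pushList (by omega) _, by show 0 < 3; omega⟩
  · trivial

theorem run_inConv (c : I → T) (M : ℕ) (hM : ∀ a, (c a).size ≤ M) (r : List I) :
    ∀ (t : T) (s : St (Al I O)), s 0 = t.word (.inl false) (.inl true) →
      s 1 = r.map (fun a => .inr (.inl a)) →
      Run (inConv O c) s (update (update s 1 []) 0
        ((r.foldl (fun t a => T.node (c a) t) t).word (.inl false) (.inl true)))
        ((2 * M + 5) * r.length + 1) := by
  induction r with
  | nil =>
    intro t s h0 h1
    refine (Run.whl_done (by simpa using h1)).cast ?_ (by simp)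
    simp only [List.foldl_nil]
    simp only [List.map_nil] at h1
    rw [← h0, update_comm one_ne_zero, update_eq_self, ← h1, update_eq_self]
  | cons a r ih =>
    intro t s h0 h1
    have e1 : Run (.seq (pushList 0 ((c a).word (.inl false) (.inl true))) (.push 0 (.inl true)))
        (update s 1 (r.map (fun a => .inr (.inl a))))
        (update (update s 1 (r.map (fun a => .inr (.inl a)))) 0
          ((T.node (c a) t).word (.inl false) (.inl true))) (2 * M + 3) := by
      refine ((run_pushList _ _).seq (Run.push 0 _ _)).cast ?_ ?_
      · funext i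
        simp only [update_apply]
        split_ifs <;> simp_all [T.word]
      · have := hM a
        simp
        omega
    have e2 := ih (T.node (c a) t) (update (update s 1 (r.map (fun a => .inr (.inl a)))) 0
          ((T.node (c a) t).word (.inl false) (.inl true))) (by simp) (by simp)
    refine (Run.whl_step (by simp [h1]) (Run.popc_cons (a := .inr (.inl a))
      (l := r.map (fun a => .inr (.inl a))) (by simpa using h1) e1) e2).cast ?_ ?_
    · funext i
      simp only [update_apply]
      split_ifs <;> simp_all [T.word]
    · simp only [List.length_cons]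
      nlinarith

theorem foldl_reverse_ofList (c : I → T) (l : List I) :
    l.reverse.foldl (fun t a => T.node (c a) t) .nil = T.ofList c l := by
  rw [List.foldl_reverse]
  induction l with
  | nil => rfl
  | cons a l ih => simp [ih]

/-- Read the unary index of a symbol from register `0` and push the symbol on register `2`. -/
def readSym (I : Type) {O : Type} : List O → Prog (Al I O)
  | [] => .skip
  | b :: L => .popc 0 fun a => match a with
    | some (.inl true) => .popc 0 fun _ => readSym I L
    | _ => .push 2 (.inr (.inr b))

theorem below_readSym (L : List O) : Below (readSym I L) 3 := by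
  induction L with
  | nil => trivial
  | cons b L ih =>
    refine ⟨by omega, fun a => ?_⟩
    rcases a with _ | ((_ | _) | _)
    · show 2 < 3; omega
    · show 2 < 3; omega
    · exact ⟨by omega, fun _ => ih⟩
    · show 2 < 3; omega

theorem run_readSym (L : List O) : ∀ (i : ℕ) (b : O) (rest : List (Al I O)) (s : St (Al I O)),
    L[i]? = some b → s 0 = (T.unary i).word (.inl false) (.inl true) ++ rest →
    Run (readSym I L) s (update (update s 0 rest) 2 (.inr (.inr b) :: s 2)) (2 * i + 2) := by
  induction L with
  | nil => intro i b rest s h; simp at h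
  | cons b' L ih =>
    intro i b rest s h h0
    cases i with
    | zero =>
      have hb : b' = b := by simpa using h
      subst hb
      refine (Run.popc_cons (a := .inl false) (l := rest) (by simpa [T.word] using h0)
        (Run.push 2 _ _)).cast ?_ (by omega)
      funext i
      simp only [update_apply]
      split_ifs <;> simp_all
    | succ i =>
      have e1 := ih i b rest (update s 0 ((T.unary i).word (.inl false) (.inl true) ++ rest))
        (by simpa using h) (by simp)
      refine (Run.popc_cons (a := .inl true)
        (l := .inl false :: ((T.unary i).word (.inl false) (.inl true) ++ rest))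
        (t := 2 * i + 2 + 1)
        (by simpa [T.word] using h0) ?_).cast (s' := update (update s 0 rest) 2
          (.inr (.inr b) :: s 2)) rfl (by omega)
      refine Run.popc_cons (a := .inl false)
        (l := ((T.unary i).word (.inl false) (.inl true) ++ rest)) (t := 2 * i + 2) (by simp) ?_
      rw [update_idem]
      refine e1.cast ?_ le_rfl
      funext i
      simp only [update_apply]
      split_ifs <;> simp_all

/-- The loop body of `outConv`. -/
def outBody (I : Type) {O : Type} (L : List O) : Prog (Al I O) :=
  .popc 0 fun a => match a with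
    | some (.inl true) => readSym I L
    | _ => .skip

/-- Convert a list of unary codes in register `0` to symbols in register `2`, reversed. -/
def outConv (I : Type) {O : Type} (L : List O) : Prog (Al I O) := .whl 0 (outBody I L)

theorem below_outConv (L : List O) : Below (outConv I L) 3 := by
  refine ⟨by omega, by omega, fun a => ?_⟩
  rcases a with _ | ((_ | _) | _)
  · trivial
  · trivial
  · exact below_readSym L
  · trivial

theorem run_outConv [DecidableEq O] (L : List O) (hL : ∀ b : O, b ∈ L) (l : List O) :
    ∀ (s : St (Al I O)), s 0 = (T.ofList (fun b => T.unary (L.idxOf b)) l).word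
        (.inl false) (.inl true) →
      Run (outConv I L) s (update (update s 0 []) 2
        ((l.map (fun b => .inr (.inr b))).reverse ++ s 2)) ((2 * L.length + 4) * l.length + 4) := by
  induction l with
  | nil =>
    intro s h0
    refine (Run.whl_step (p := outBody I L) (t := 2) (u := 1) (s₁ := update s 0 [])
      (by simp [h0, T.word])
      (Run.popc_cons (a := .inl false) (l := []) (by simp [h0, T.word]) (Run.skip _))
      (Run.whl_done (by simp))).cast ?_ (by omega)
    funext i
    simp only [update_apply]
    split_ifs <;> simp_all
  | cons b l ih =>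
    intro s h0
    have e1 := run_readSym (I := I) L (L.idxOf b) b
      ((T.ofList (fun b => T.unary (L.idxOf b)) l).word (.inl false) (.inl true))
      (update s 0 ((T.unary (L.idxOf b)).word (.inl false) (.inl true) ++
        (T.ofList (fun b => T.unary (L.idxOf b)) l).word (.inl false) (.inl true)))
      (List.getElem?_idxOf (hL b)) (by simp)
    have e2 : Run (outBody I L) s (update (update s 0
        ((T.ofList (fun b => T.unary (L.idxOf b)) l).word (.inl false) (.inl true))) 2
        (.inr (.inr b) :: s 2)) (2 * L.idxOf b + 3) := by
      refine (Run.popc_cons (a := .inl true)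
        (l := ((T.unary (L.idxOf b)).word (.inl false) (.inl true) ++
        (T.ofList (fun b => T.unary (L.idxOf b)) l).word (.inl false) (.inl true)))
        (by simp [h0, T.word]) e1).cast ?_ le_rfl
      funext i
      simp only [update_apply]
      split_ifs <;> simp_all
    have e3 := ih (update (update s 0
        ((T.ofList (fun b => T.unary (L.idxOf b)) l).word (.inl false) (.inl true))) 2
        (.inr (.inr b) :: s 2)) (by simp)
    refine (Run.whl_step (p := outBody I L) (by simp [h0, T.word]) e2 e3).cast ?_ ?_
    · funext i
      simp only [update_apply]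
      split_ifs <;> simp_all
    · have := List.idxOf_lt_length_of_mem (hL b)
      simp only [List.length_cons]
      nlinarith

/-! ### The final machine -/

/-- Labels of the final machine: reading the input, the program, writing the output. -/
abbrev FLab (I O L : Type) := Option I ⊕ L ⊕ Option (Option O)

/-- Where to go after reading an input symbol. -/
def fPro (p : Prog (Al I O)) : Option I → FLab I O (Lab p)
  | some a => .inl (some a)
  | none => .inr (.inl (entry p))

/-- Where to go after reading an output symbol. -/
def fEpi (p : Prog (Al I O)) : Option (Al I O) → FLab I O (Lab p)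
  | some (.inr (.inr b)) => .inr (.inr (some (some b)))
  | _ => .inr (.inr none)

/-- The code of the final machine. -/
def finalCode (N : ℕ) [NeZero N] (p : Prog (Al I O)) :
    FLab I O (Lab p) → TM2.Stmt (Gam I O (Al I O) N) (FLab I O (Lab p)) (Sig I (Al I O))
  | .inl none => .pop .inp (fun v o => (o, v.2)) (.goto fun v => fPro p v.1)
  | .inl (some a) => .push (rg 1) (fun _ => (.inr (.inl a) : Al I O)) (.goto fun _ => .inl none)
  | .inr (.inl l) => code I O N p (fun l => .inr (.inl l)) (.inr (.inr (some none))) l
  | .inr (.inr (some none)) => .pop (rg 2) (fun v o => (v.1, o)) (.goto fun v => fEpi p v.2)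
  | .inr (.inr (some (some b))) => .push .out (fun _ => b) (.goto fun _ => .inr (.inr (some none)))
  | .inr (.inr none) => .load (fun _ => (none, none)) .halt

theorem step_pro {N : ℕ} [NeZero N] (p : Prog (Al I O)) (v : Sig I (Al I O))
    (S : ∀ k, List (Gam I O (Al I O) N k)) (w : List I) (hw : S .inp = w) :
    TM2.step (finalCode N p) ⟨some (.inl none), v, S⟩ =
      some ⟨some (fPro p w.head?), (w.head?, v.2), update S .inp w.tail⟩ := by
  subst hw
  rfl

theorem step_epi {N : ℕ} [NeZero N] (p : Prog (Al I O)) (v : Sig I (Al I O))
    (S : ∀ k, List (Gam I O (Al I O) N k)) (w : List (Al I O)) (hw : S (rg 2) = w) :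
    TM2.step (finalCode N p) ⟨some (.inr (.inr (some none))), v, S⟩ =
      some ⟨some (fEpi p w.head?), (v.1, w.head?), update S (rg 2) w.tail⟩ := by
  subst hw
  rfl

theorem steps_pro {N : ℕ} [NeZero N] (hN : 3 ≤ N) (p : Prog (Al I O)) (l : List I) :
    ∀ (v : Sig I (Al I O)) (S : ∀ k, List (Gam I O (Al I O) N k)) (s : St (Al I O)),
      S .inp = l → Agree S s →
      ∃ v' S', S' .inp = ([] : List I) ∧ S' .out = S .out ∧
        Agree S' (update s 1 ((l.map (fun a => .inr (.inl a))).reverse ++ s 1)) ∧
        Steps (finalCode N p) (2 * l.length + 1) ⟨some (.inl none), v, S⟩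
          ⟨some (.inr (.inl (entry p))), v', S'⟩ := by
  induction l with
  | nil =>
    intro v S s hl hS
    refine ⟨(none, v.2), update S .inp ([] : List I), ?_, ?_, ?_, ?_⟩
    · exact update_self _ _ _
    · exact update_of_ne (by simp) _ _
    · intro i
      simp only [List.map_nil, List.reverse_nil, List.nil_append, update_eq_self]
      exact (update_of_ne (by simp) _ _).trans (hS i)
    · exact Steps.one (step_pro p v S _ hl)
  | cons a l ih =>
    intro v S s hl hS
    let S1 : ∀ k, List (Gam I O (Al I O) N k) := update S .inp l
    let S2 : ∀ k, List (Gam I O (Al I O) N k) := update S1 (rg 1) ((.inr (.inl a) : Al I O) :: S1 (rg 1))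
    have hS1 : Agree S1 s := by
      intro i
      exact (update_of_ne (by simp) _ _).trans (hS i)
    have hS2 : Agree S2 (update s 1 (.inr (.inl a) :: s 1)) :=
      hS1.update (by omega) _ _ (congrArg (List.cons _) (hS1.apply (by omega)))
    obtain ⟨v', S', h1, h2, h3, h4⟩ := ih (some a, v.2) S2 _
      ((update_of_ne (by simp [rg]) _ _).trans (update_self _ _ _)) hS2
    refine ⟨v', S', h1, ?_, ?_, ?_⟩
    · exact h2.trans ((update_of_ne (by simp [rg]) _ _).trans (update_of_ne (by simp) _ _))
    · convert h3 using 1
      simp
    · rw [show 2 * (a :: l).length + 1 = 1 + (1 + (2 * l.length + 1)) by simp; ring]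
      refine Steps.trans (Steps.one (step_pro p v S _ hl)) (Steps.trans (Steps.one ?_) h4)
      rfl

theorem steps_epi {N : ℕ} [NeZero N] (hN : 3 ≤ N) (p : Prog (Al I O)) (l : List O) :
    ∀ (v : Sig I (Al I O)) (S : ∀ k, List (Gam I O (Al I O) N k)) (s : St (Al I O)) (w : List O),
      S .out = w → Agree S s → s 2 = l.map (fun a => .inr (.inr a)) →
      ∃ v' S', S' .inp = S .inp ∧ S' .out = (l.reverse ++ w : List O) ∧
        Agree S' (update s 2 []) ∧
        Steps (finalCode N p) (2 * l.length + 1) ⟨some (.inr (.inr (some none))), v, S⟩
          ⟨some (.inr (.inr none)), v', S'⟩ := by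
  induction l with
  | nil =>
    intro v S s w hw hS h2
    have e := hS.apply (k := 2) (by omega)
    refine ⟨(v.1, none), update S (rg 2) ([] : List (Al I O)), ?_, ?_, ?_, ?_⟩
    · exact update_of_ne (by simp [rg]) _ _
    · exact (update_of_ne (by simp [rg]) _ _).trans hw
    · exact hS.update (by omega) _ _ rfl
    · exact Steps.one (step_epi p v S _ (e.trans h2))
  | cons b l ih =>
    intro v S s w hw hS h2
    have e := hS.apply (k := 2) (by omega)
    let S1 : ∀ k, List (Gam I O (Al I O) N k) :=
      update S (rg 2) (l.map (fun a => .inr (.inr a)) : List (Al I O))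
    let S2 : ∀ k, List (Gam I O (Al I O) N k) := update S1 .out (b :: S1 .out : List O)
    have hS1 : Agree S1 (update s 2 (l.map (fun a => .inr (.inr a)))) :=
      hS.update (by omega) _ _ rfl
    have hS2 : Agree S2 (update s 2 (l.map (fun a => .inr (.inr a)))) := by
      intro i
      exact (update_of_ne (by simp) _ _).trans (hS1 i)
    have e5 : S1 .out = w := (update_of_ne (by simp [rg]) _ _).trans hw
    have e4 : S2 .out = (b :: w : List O) := (update_self _ _ _).trans (congrArg (List.cons b) e5)
    obtain ⟨v', S', h1, h2', h3, h4⟩ := ih (v.1, some (.inr (.inr b))) S2 _ _ e4 hS2 (by simp)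
    refine ⟨v', S', ?_, ?_, ?_, ?_⟩
    · exact h1.trans ((update_of_ne (by simp) _ _).trans (update_of_ne (by simp [rg]) _ _))
    · rw [h2']
      simp
    · rw [update_idem] at h3
      exact h3
    · rw [show 2 * (b :: l).length + 1 = 1 + (1 + (2 * l.length + 1)) by simp; ring]
      refine Steps.trans (Steps.one (step_epi p v S _ (e.trans h2)))
        (Steps.trans (Steps.one ?_) h4)
      rfl

/-- The final machine. -/
noncomputable def finalTM [Fintype I] [Fintype O] (N : ℕ) [NeZero N] (p : Prog (Al I O)) :
    FinTM2 :=
  letI := labFintype p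
  { K := Reg N
    k₀ := .inp
    k₁ := .out
    Γ := Gam I O (Al I O) N
    Λ := FLab I O (Lab p)
    main := .inl none
    ΛFin := inferInstance
    σ := Sig I (Al I O)
    initialState := (none, none)
    σFin := inferInstance
    Γk₀Fin := inferInstanceAs (Fintype I)
    m := finalCode N p }

/-- The whole program: convert the input, compute, convert the output. -/
def wholeProg (c : I → T) (L : List O) (pF : Prog (Al I O)) : Prog (Al I O) :=
  .seq (.seq (.push 0 (.inl false)) (inConv O c)) (.seq pF (outConv I L))

theorem below_wholeProg {c : I → T} {L : List O} {pF : Prog (Al I O)} {k : ℕ} (h : Below pF k) :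
    Below (wholeProg c L pF) (max k 3) :=
  ⟨⟨by show 0 < max k 3; omega, (below_inConv c).mono (le_max_right _ _)⟩,
    h.mono (le_max_left _ _), (below_outConv L).mono (le_max_right _ _)⟩

theorem length_le_size_ofList {γ : Type*} (c : γ → T) (l : List γ) :
    l.length ≤ (T.ofList c l).size := by
  induction l with
  | nil => simp
  | cons a l ih => simp only [T.ofList_cons, T.size_node, List.length_cons]; omega

theorem run_wholeProg [DecidableEq O] {c : I → T} {M : ℕ} (hM : ∀ a, (c a).size ≤ M) {L : List O}
    (hL : ∀ b : O, b ∈ L) {pF : Prog (Al I O)} {k : ℕ} {P : Polynomial ℕ} {F : T → T}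
    (hc : Computes (.inl false) (.inl true) pF k P F) (u : List I) (w : List O)
    (h : F (T.ofList c u) = T.ofList (fun b => T.unary (L.idxOf b)) w) :
    Run (wholeProg c L pF) (update (fun _ => []) 1 ((u.map (fun a => .inr (.inl a))).reverse))
      (update (fun _ => []) 2 ((w.reverse).map (fun a => .inr (.inr a))))
      (((2 * M + 5) * u.length + 2) + (P.eval (T.ofList c u).size +
        ((2 * L.length + 4) * w.length + 4))) := by
  obtain ⟨hk, hb, hr⟩ := hc
  let s0 : St (Al I O) := update (fun _ => []) 1 ((u.map (fun a => .inr (.inl a))).reverse)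
  let s1 : St (Al I O) := update s0 0 [.inl false]
  let s2 : St (Al I O) := update (fun _ => []) 0 ((T.ofList c u).word (.inl false) (.inl true))
  let s3 : St (Al I O) := update (fun _ => []) 0 ((F (T.ofList c u)).word (.inl false) (.inl true))
  have r1 : Run (.push 0 (.inl false)) s0 s1 1 :=
    (Run.push 0 _ _).cast (by simp [s1, s0]) le_rfl
  have r2 : Run (inConv O c) s1 s2 ((2 * M + 5) * u.length + 1) := by
    refine (run_inConv c M hM u.reverse .nil s1 (by simp [s1, T.word])
      (by simp [s1, s0])).cast ?_ (by simp)
    rw [foldl_reverse_ofList]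
    funext i
    simp only [s2, s1, s0, update_apply]
    split_ifs <;> simp_all
  have r3 : Run pF s2 s3 (P.eval (T.ofList c u).size) := by
    refine (hr (T.ofList c u) s2 (by simp [s2]) (fun i h0 _ => ?_)).cast ?_ le_rfl
    · simp only [s2]
      rw [update_of_ne h0.ne']
    · simp only [s2, s3]
      rw [update_idem]
  have r4 := run_outConv (I := I) L hL w s3 (by simp only [s3]; rw [update_self, h])
  refine ((r1.seq r2).seq (r3.seq r4)).cast ?_ (by omega)
  funext i
  simp only [s3, update_apply]
  split_ifs <;> simp_all

open Polynomial in
/-- The bridge to Mathlib's Turing machines. -/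
theorem FP.tm2 [Fintype I] [Fintype O] [DecidableEq O] {α β : Type} {ea : α → List I}
    {eb : β → List O} {f : α → β} {F : T → T} (hF : FP F) (c : I → T) (L : List O)
    (hL : ∀ b, b ∈ L)
    (h : ∀ a, F (T.ofList c (ea a)) = T.ofList (fun b => T.unary (L.idxOf b)) (eb (f a))) :
    Nonempty (TM2ComputableInPolyTime ea eb f) := by
  obtain ⟨⟨Q, hQ⟩, hF⟩ := hF
  obtain ⟨pF, k, P, hc⟩ := hF (Al I O) (.inl false) (.inl true) (by simp)
  have : NeZero (max k 3) := ⟨by omega⟩
  obtain ⟨M, hM⟩ : ∃ M, ∀ a, (c a).size ≤ M :=
    ⟨Finset.univ.sup (fun a => (c a).size), fun a => Finset.le_sup (f := fun a => (c a).size)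
      (Finset.mem_univ a)⟩
  refine ⟨⟨⟨finalTM (max k 3) (wholeProg c L pF), Equiv.refl _, Equiv.refl _⟩,
    C (2 * M + 2 * L.length + 100) * (1 + X + P.comp (C (M + 1) * X) + Q.comp (C (M + 1) * X)),
    fun a => ?_⟩⟩
  -- turn the goal into the existence of a number of steps
  have key : ∃ n ≤ Polynomial.eval (ea a).length (C (2 * M + 2 * L.length + 100) *
      (1 + X + P.comp (C (M + 1) * X) + Q.comp (C (M + 1) * X))),
      Steps (finalCode (max k 3) (wholeProg c L pF)) n
        (initList (finalTM (max k 3) (wholeProg c L pF)) (ea a))
        (haltList (finalTM (max k 3) (wholeProg c L pF)) (eb (f a))) := by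
    obtain ⟨v1, S1, a1, a2, a3, a4⟩ := steps_pro (N := max k 3) (le_max_right _ _)
      (wholeProg c L pF) (ea a) (none, none)
      (initList (finalTM (max k 3) (wholeProg c L pF)) (ea a)).stk (fun _ => []) rfl
      (fun i => rfl)
    obtain ⟨t, ht, hrun⟩ := run_wholeProg hM hL hc (ea a) (eb (f a)) (h a)
    have a2' : S1 .out = ([] : List O) := a2.trans rfl
    obtain ⟨v2, S2, b1, b2, b3, b4, b5⟩ := exec_sim (I := I) (O := O) (N := max k 3) hrun
      (below_wholeProg hc.2.1) (finalCode (max k 3) (wholeProg c L pF)) (fun l => .inr (.inl l))
      (.inr (.inr (some none))) (fun l => rfl) v1 S1 (by simpa using a3)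
    obtain ⟨v3, S3, c1, c2, c3, c4⟩ := steps_epi (N := max k 3) (le_max_right _ _)
      (wholeProg c L pF) (eb (f a)).reverse v2 S2 _ [] (b4.trans a2') b1 (by simp)
    refine ⟨(2 * (ea a).length + 1) + (t + ((2 * (eb (f a)).reverse.length + 1) + 1)), ?_,
      a4.trans (b5.trans (c4.trans (Steps.one ?_)))⟩
    · simp only [eval_add, eval_one, eval_mul, eval_X, eval_C, eval_comp, List.length_reverse]
      have e1 := T.size_ofList_le c M hM (ea a)
      have e2 : (eb (f a)).length ≤ Q.eval ((M + 1) * (ea a).length) := by
        refine le_trans ?_ (peval_mono Q e1)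
        refine le_trans ?_ (hQ _)
        rw [h a]
        exact length_le_size_ofList _ _
      have e3 := peval_mono P e1
      generalize Polynomial.eval ((M + 1) * (ea a).length) P = A1 at *
      generalize Polynomial.eval ((M + 1) * (ea a).length) Q = B1 at *
      generalize Polynomial.eval (T.ofList c (ea a)).size P = A0 at *
      generalize (ea a).length = n at *
      generalize (eb (f a)).length = m at *
      have f1 : (2 * L.length + 4) * m ≤ (2 * L.length + 4) * B1 := Nat.mul_le_mul_left _ e2
      have f2 : (2 * M + 2 * L.length + 100) * (1 + n + A1 + B1) =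
        (2 * M + 2 * L.length + 100) + ((2 * M + 5) * n + (2 * L.length + 95) * n) +
        (A1 + (2 * M + 2 * L.length + 99) * A1) +
        ((2 * L.length + 4) * B1 + (2 * M + 96) * B1) := by ring
      rw [f2]
      have f3 : 95 * n ≤ (2 * L.length + 95) * n := Nat.mul_le_mul_right _ (by omega)
      have f4 : 96 * B1 ≤ (2 * M + 96) * B1 := Nat.mul_le_mul_right _ (by omega)
      omega
    · have e0 : S3 = (haltList (finalTM (max k 3) (wholeProg c L pF)) (eb (f a))).stk := by
        funext r
        cases r with
        | inp => exact (c1.trans (b3.trans a1)).trans rfl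
        | out =>
          refine c2.trans ?_
          rw [List.reverse_reverse, List.append_nil]
          rfl
        | reg i =>
          refine (c3 i).trans ?_
          rw [update_idem]
          have : update (fun _ => []) 2 ([] : List (Al I O)) = fun _ => [] := by
            funext j
            simp only [update_apply]
            split_ifs <;> rfl
          rw [this]
          rfl
      have e1 : TM2.step (finalCode (max k 3) (wholeProg c L pF)) ⟨some (.inr (.inr none)), v3, S3⟩
          = some ⟨none, (none, none), S3⟩ := rfl
      rw [e1, e0]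
      rfl
  obtain ⟨n, hn, hs⟩ := Classical.indefiniteDescription _ key
  have e1 : List.map (Equiv.refl I).invFun (ea a) = ea a := List.map_id _
  have e2 : List.map (Equiv.refl O).invFun (eb (f a)) = eb (f a) := List.map_id _
  refine ⟨⟨n, ?_⟩, hn⟩
  have e3 : ∀ (u : List I) (w : List O), u = ea a → w = eb (f a) →
    (flip bind (finalTM (max k 3) (wholeProg c L pF)).step)^[n]
      (some (initList (finalTM (max k 3) (wholeProg c L pF)) u)) =
      Option.map (haltList (finalTM (max k 3) (wholeProg c L pF))) (some w) := by
    rintro _ _ rfl rfl
    exact hs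
  exact e3 _ _ e1 e2

end Bridge

end Pool.Agent.Lib.MP_fe081e_lc.PT
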