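import Mathlib

/-!
# A small structured stack language compiled to Mathlib's `Turing.FinTM2`

* `Prog A` : programs over an unbounded supply of stacks with alphabet `A`;
* `Exec p s s' t` : big-step semantics, `p` started in `s` ends in `s'` after exactly `t` steps;
* `exec_sim` : the compiled code simulates `Exec` step by step.
-/

namespace Pool.Agent.Lib.MP_fe081e_lc.PT

open Turing Function

/-- Structured stack programs. Registers are numbered by naturals. -/
inductive Prog (A : Type) : Type
  | skip : Prog A
  | push : ℕ → A → Prog A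
  | popc : ℕ → (Option A → Prog A) → Prog A
  | seq : Prog A → Prog A → Prog A
  | whl : ℕ → Prog A → Prog A

/-- The memory: one stack per register. -/
abbrev St (A : Type) := ℕ → List A

/-- Big-step semantics with exact cost. -/
inductive Exec {A : Type} : Prog A → St A → St A → ℕ → Prop
  | skip (s : St A) : Exec .skip s s 1
  | push (k : ℕ) (a : A) (s : St A) : Exec (.push k a) s (update s k (a :: s k)) 1
  | popc (k : ℕ) (f : Option A → Prog A) (s s' : St A) (t : ℕ) :
      Exec (f (s k).head?) (update s k (s k).tail) s' t → Exec (.popc k f) s s' (t + 1)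
  | seq (p q : Prog A) (s s₁ s' : St A) (t u : ℕ) :
      Exec p s s₁ t → Exec q s₁ s' u → Exec (.seq p q) s s' (t + u)
  | whl_done (k : ℕ) (p : Prog A) (s : St A) : s k = [] → Exec (.whl k p) s s 1
  | whl_step (k : ℕ) (p : Prog A) (s s₁ s' : St A) (t u : ℕ) :
      s k ≠ [] → Exec p s s₁ t → Exec (.whl k p) s₁ s' u → Exec (.whl k p) s s' (t + u + 1)

/-- All register numbers used are below `N`. -/
def Below {A : Type} : Prog A → ℕ → Prop
  | .skip, _ => True
  | .push k _, N => k < N
  | .popc k f, N => k < N ∧ ∀ o, Below (f o) N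
  | .seq p q, N => Below p N ∧ Below q N
  | .whl k p, N => k < N ∧ Below p N

theorem Below.mono {A : Type} {p : Prog A} {N M : ℕ} (h : Below p N) (hNM : N ≤ M) :
    Below p M := by
  induction p with
  | skip => trivial
  | push k a => exact lt_of_lt_of_le h hNM
  | popc k f ih => exact ⟨lt_of_lt_of_le h.1 hNM, fun o => ih o (h.2 o)⟩
  | seq p q ihp ihq => exact ⟨ihp h.1, ihq h.2⟩
  | whl k p ih => exact ⟨lt_of_lt_of_le h.1 hNM, ih h.2⟩

/-! ### Compilation -/

/-- Program points of a program. -/
def Lab {A : Type} : Prog A → Type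
  | .skip => Unit
  | .push _ _ => Unit
  | .popc _ f => Option (Σ o : Option A, Lab (f o))
  | .seq p q => Lab p ⊕ Lab q
  | .whl _ p => Option (Lab p)

/-- There are finitely many program points. -/
@[instance_reducible] noncomputable def labFintype {A : Type} [Fintype A] : ∀ p : Prog A, Fintype (Lab p)
  | .skip => inferInstanceAs (Fintype Unit)
  | .push _ _ => inferInstanceAs (Fintype Unit)
  | .popc _ f =>
    letI : ∀ o, Fintype (Lab (f o)) := fun o => labFintype (f o)
    inferInstanceAs (Fintype (Option (Σ o : Option A, Lab (f o))))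
  | .seq p q =>
    letI := labFintype p
    letI := labFintype q
    inferInstanceAs (Fintype (Lab p ⊕ Lab q))
  | .whl _ p =>
    letI := labFintype p
    inferInstanceAs (Fintype (Option (Lab p)))

/-- The entry point of a program. -/
def entry {A : Type} : ∀ p : Prog A, Lab p
  | .skip => ()
  | .push _ _ => ()
  | .popc _ _ => none
  | .seq p _ => Sum.inl (entry p)
  | .whl _ _ => none

/-- The stacks of the compiled machine. -/
inductive Reg (N : ℕ) : Type
  | inp : Reg N
  | out : Reg N
  | reg : Fin N → Reg N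
  deriving DecidableEq, Fintype

/-- Stack alphabets of the compiled machine. -/
def Gam (I O A : Type) (N : ℕ) : Reg N → Type
  | .inp => I
  | .out => O
  | .reg _ => A

/-- The register numbered `k` (well defined for `k < N`). -/
def rg {N : ℕ} [NeZero N] (k : ℕ) : Reg N := .reg (Fin.ofNat N k)

/-- The machine's internal memory. -/
abbrev Sig (I A : Type) := Option I × Option A

/-- Compiled code, with label embedding `ι` and exit label `x`. -/
def code {A : Type} (I O : Type) (N : ℕ) [NeZero N] {Λ : Type} :
    ∀ p : Prog A, (Lab p → Λ) → Λ → Lab p → TM2.Stmt (Gam I O A N) Λ (Sig I A)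
  | .skip, _, x => fun _ => .goto fun _ => x
  | .push k a, _, x => fun _ => .push (rg k) (fun _ => a) (.goto fun _ => x)
  | .popc k f, ι, x => fun l =>
      match l with
      | none => .pop (rg k) (fun v o => (v.1, o)) (.goto fun v => ι (some ⟨v.2, entry (f v.2)⟩))
      | some l => code I O N (f l.1) (fun l' => ι (some ⟨l.1, l'⟩)) x l.2
  | .seq p q, ι, x => fun l =>
      match l with
      | Sum.inl l => code I O N p (fun l' => ι (Sum.inl l')) (ι (Sum.inr (entry q))) l
      | Sum.inr l => code I O N q (fun l' => ι (Sum.inr l')) x l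
  | .whl k p, ι, x => fun l =>
      match l with
      | none => .peek (rg k) (fun v o => (v.1, o))
          (.goto fun v => if v.2.isSome then ι (some (entry p)) else x)
      | some l => code I O N p (fun l' => ι (some l')) (ι none) l
  termination_by structural p => p

theorem code_popc_some {A : Type} (I O : Type) (N : ℕ) [NeZero N] {Λ : Type} (k : ℕ)
    (f : Option A → Prog A) (ι : Lab (Prog.popc k f) → Λ) (x : Λ) (o : Option A) (l : Lab (f o)) :
    code I O N (Prog.popc k f) ι x (some ⟨o, l⟩) =
      code I O N (f o) (fun l' => ι (some ⟨o, l'⟩)) x l := by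
  rw [code]

theorem code_popc_none {A : Type} (I O : Type) (N : ℕ) [NeZero N] {Λ : Type} (k : ℕ)
    (f : Option A → Prog A) (ι : Lab (Prog.popc k f) → Λ) (x : Λ) :
    code I O N (Prog.popc k f) ι x none =
      .pop (rg k) (fun v o => (v.1, o)) (.goto fun v => ι (some ⟨v.2, entry (f v.2)⟩)) := by
  rw [code]

/-- `n` machine steps lead from `a` to `b`. -/
def Steps {K : Type} [DecidableEq K] {Γ : K → Type} {Λ σ : Type} (M : Λ → TM2.Stmt Γ Λ σ)
    (n : ℕ) (a b : TM2.Cfg Γ Λ σ) : Prop :=
  (flip bind (TM2.step M))^[n] (some a) = some b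

theorem Steps.refl {K : Type} [DecidableEq K] {Γ : K → Type} {Λ σ : Type}
    (M : Λ → TM2.Stmt Γ Λ σ) (a : TM2.Cfg Γ Λ σ) : Steps M 0 a a := rfl

theorem Steps.one {K : Type} [DecidableEq K] {Γ : K → Type} {Λ σ : Type}
    {M : Λ → TM2.Stmt Γ Λ σ} {a b : TM2.Cfg Γ Λ σ} (h : TM2.step M a = some b) :
    Steps M 1 a b := by
  simpa [Steps, flip] using h

theorem Steps.trans {K : Type} [DecidableEq K] {Γ : K → Type} {Λ σ : Type}
    {M : Λ → TM2.Stmt Γ Λ σ} {m n : ℕ} {a b c : TM2.Cfg Γ Λ σ} (h₁ : Steps M m a b)
    (h₂ : Steps M n b c) : Steps M (m + n) a c := by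
  unfold Steps at *
  rw [add_comm, iterate_add_apply, h₁, h₂]

/-- Machine stacks agree with the memory on registers. -/
def Agree {A I O : Type} {N : ℕ} (S : ∀ k, List (Gam I O A N k)) (s : St A) : Prop :=
  ∀ i : Fin N, S (.reg i) = s i

theorem rg_ofNat_ne {N : ℕ} [NeZero N] {k : ℕ} (hk : k < N) {i : Fin N} (hi : (i : ℕ) ≠ k) :
    (Reg.reg i : Reg N) ≠ rg k := by
  intro h'
  apply hi
  have := congrArg (fun r : Reg N => match r with | .reg j => (j : ℕ) | _ => 0) h'
  simpa [rg, Fin.ofNat, Nat.mod_eq_of_lt hk] using this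

theorem rg_eq {N : ℕ} [NeZero N] (i : Fin N) : (Reg.reg i : Reg N) = rg (i : ℕ) := by
  unfold rg
  congr 1
  apply Fin.ext
  simp [Fin.ofNat, Nat.mod_eq_of_lt i.2]

theorem Agree.update {A I O : Type} {N : ℕ} [NeZero N] {S : ∀ k, List (Gam I O A N k)}
    {s : St A} (h : Agree S s) {k : ℕ} (hk : k < N) (l : List (Gam I O A N (rg k))) (l' : List A)
    (e : l = l') : Agree (Function.update S (rg k) l) (Function.update s k l') := by
  intro i
  by_cases hi : (i : ℕ) = k
  · subst hi
    rw [update_self, ← e]
    have : ∀ r : Reg N, (Reg.reg i : Reg N) = r → ∀ l : List (Gam I O A N r),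
        HEq (Function.update S r l (Reg.reg i)) l := by
      intro r hr l
      subst hr
      rw [update_self]
    exact eq_of_heq (this _ (rg_eq i) l)
  · rw [update_of_ne hi]
    exact (update_of_ne (rg_ofNat_ne hk hi) l S).trans (h i)

theorem Agree.apply {A I O : Type} {N : ℕ} [NeZero N] {S : ∀ k, List (Gam I O A N k)}
    {s : St A} (h : Agree S s) {k : ℕ} (hk : k < N) : (S (rg k) : List A) = s k := by
  refine (h (Fin.ofNat N k)).trans ?_
  rw [show ((Fin.ofNat N k : Fin N) : ℕ) = k by simp [Fin.ofNat, Nat.mod_eq_of_lt hk]]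

/-- The compiled code simulates the big-step semantics. -/
theorem exec_sim {A I O : Type} {N : ℕ} [NeZero N] {p : Prog A} {s s' : St A} {t : ℕ}
    (h : Exec p s s' t) : Below p N → ∀ {Λ : Type} (M : Λ → TM2.Stmt (Gam I O A N) Λ (Sig I A))
    (ι : Lab p → Λ) (x : Λ), (∀ l, M (ι l) = code I O N p ι x l) →
    ∀ (v : Sig I A) (S : ∀ k, List (Gam I O A N k)), Agree S s →
    ∃ v' S', Agree S' s' ∧ v'.1 = v.1 ∧ S' .inp = S .inp ∧ S' .out = S .out ∧
      Steps M t ⟨some (ι (entry p)), v, S⟩ ⟨some x, v', S'⟩ := by
  induction h with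
  | skip s =>
    intro _ Λ M ι x hM v S hS
    refine ⟨v, S, hS, rfl, rfl, rfl, Steps.one ?_⟩
    simp only [TM2.step, hM]
    rfl
  | push k a s =>
    intro hb Λ M ι x hM v S hS
    refine ⟨v, Function.update S (rg k) (a :: S (rg k)), ?_, rfl, ?_, ?_, Steps.one ?_⟩
    · exact hS.update hb (a :: S (rg k)) (a :: s k) (congrArg (List.cons a) (hS.apply hb))
    · exact update_of_ne (by simp [rg]) _ _
    · exact update_of_ne (by simp [rg]) _ _
    · simp only [TM2.step, hM]
      rfl
  | popc k f s s' t _ ih =>
    intro hb Λ M ι x hM v S hS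
    have hS1 : Agree (Function.update S (rg k) (S (rg k)).tail) (Function.update s k (s k).tail) :=
      hS.update hb.1 _ _ (congrArg List.tail (hS.apply hb.1))
    obtain ⟨v', S', h1, h2, h3, h4, h5⟩ := ih (hb.2 _) M
      (fun l' => ι (some ⟨(s k).head?, l'⟩)) x (fun l => (hM _).trans (code_popc_some _ _ _ _ _ _ _ _ _))
      (v.1, (s k).head?) _ hS1
    refine ⟨v', S', h1, h2, ?_, ?_, ?_⟩
    · rw [h3]; exact update_of_ne (by simp [rg]) _ _
    · rw [h4]; exact update_of_ne (by simp [rg]) _ _
    · rw [add_comm]
      refine (Steps.one ?_).trans h5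
      have e := hS.apply hb.1
      have e2 := congrArg (fun c => some (TM2.stepAux c v S))
        ((hM none).trans (code_popc_none I O N k f ι x))
      refine e2.trans ?_
      have e3 : ∀ o : Option A, o = (s k).head? →
        some (TM2.Cfg.mk (some (ι (some ⟨o, entry (f o)⟩))) (v.1, o)
          (Function.update S (rg k) (S (rg k)).tail)) =
        some (TM2.Cfg.mk (some (ι (some ⟨(s k).head?, entry (f (s k).head?)⟩))) (v.1, (s k).head?)
          (Function.update S (rg k) (S (rg k)).tail)) := by
        rintro _ rfl; rfl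
      exact e3 _ (congrArg List.head? e)
  | seq p q s s₁ s' t u _ _ ihp ihq =>
    intro hb Λ M ι x hM v S hS
    obtain ⟨v1, S1, a1, a2, a3, a4, a5⟩ := ihp hb.1 M (fun l' => ι (Sum.inl l'))
      (ι (Sum.inr (entry q))) (fun l => (hM _).trans rfl) v S hS
    obtain ⟨v2, S2, b1, b2, b3, b4, b5⟩ := ihq hb.2 M (fun l' => ι (Sum.inr l'))
      x (fun l => (hM _).trans rfl) v1 S1 a1
    exact ⟨v2, S2, b1, b2.trans a2, b3.trans a3, b4.trans a4, a5.trans b5⟩
  | whl_done k p s hk =>
    intro hb Λ M ι x hM v S hS
    refine ⟨(v.1, none), S, hS, rfl, rfl, rfl, Steps.one ?_⟩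
    have e := hS.apply hb.1
    have e2 : TM2.step M ⟨some (ι none), v, S⟩ = some (TM2.stepAux
        (code I O N (Prog.whl k p) ι x none) v S) := congrArg (fun c => some (TM2.stepAux c v S)) (hM none)
    refine e2.trans ?_
    have e3 : ∀ o : Option A, o = none →
      some (TM2.Cfg.mk (some (if o.isSome then ι (some (entry p)) else x)) (v.1, o) S) =
      some (TM2.Cfg.mk (some x) (v.1, none) S) := by
      rintro _ rfl; rfl
    exact e3 _ ((congrArg List.head? e).trans (by rw [hk]; rfl))
  | whl_step k p s s₁ s' t u hk _ _ ihp ihw =>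
    intro hb Λ M ι x hM v S hS
    obtain ⟨v1, S1, a1, a2, a3, a4, a5⟩ := ihp hb.2 M (fun l' => ι (some l'))
      (ι none) (fun l => (hM _).trans rfl) (v.1, (s k).head?) S hS
    obtain ⟨v2, S2, b1, b2, b3, b4, b5⟩ := ihw hb M ι x hM v1 S1 a1
    refine ⟨v2, S2, b1, b2.trans a2, b3.trans a3, b4.trans a4, ?_⟩
    rw [show t + u + 1 = 1 + (t + u) by ring]
    refine (Steps.one ?_).trans (a5.trans b5)
    have e := hS.apply hb.1
    have e2 : TM2.step M ⟨some (ι none), v, S⟩ = some (TM2.stepAux
        (code I O N (Prog.whl k p) ι x none) v S) := congrArg (fun c => some (TM2.stepAux c v S)) (hM none)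
    refine e2.trans ?_
    have e3 : ∀ o : Option A, o = (s k).head? →
      some (TM2.Cfg.mk (some (if o.isSome then ι (some (entry p)) else x)) (v.1, o) S) =
      some (TM2.Cfg.mk (some (ι (some (entry p)))) (v.1, (s k).head?) S) := by
      rintro _ rfl
      obtain ⟨a, l, hl⟩ := List.exists_cons_of_ne_nil hk
      rw [hl]
      rfl
    exact e3 _ (congrArg List.head? e)

/-! ### Runs with a time bound -/

/-- `p` started in `s` ends in `s'` after at most `t` steps. -/
def Run {A : Type} (p : Prog A) (s s' : St A) (t : ℕ) : Prop := ∃ t' ≤ t, Exec p s s' t'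

namespace Run

variable {A : Type} {p q : Prog A} {s s' s₁ : St A} {t u : ℕ}

theorem mono (h : Run p s s' t) (h' : t ≤ u) : Run p s s' u := by
  obtain ⟨t', ht, he⟩ := h
  exact ⟨t', ht.trans h', he⟩

theorem cast (h : Run p s s' t) (e : s' = s₁) (h' : t ≤ u) : Run p s s₁ u := by
  subst e
  exact h.mono h'

theorem skip (s : St A) : Run .skip s s 1 := ⟨1, le_rfl, .skip s⟩

theorem push (k : ℕ) (a : A) (s : St A) : Run (.push k a) s (update s k (a :: s k)) 1 :=
  ⟨1, le_rfl, .push k a s⟩

theorem popc_nil {k : ℕ} {f : Option A → Prog A} (h : s k = []) (hr : Run (f none) s s' t) :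
    Run (.popc k f) s s' (t + 1) := by
  obtain ⟨t', ht, he⟩ := hr
  refine ⟨t' + 1, by omega, .popc k f s s' t' ?_⟩
  rw [h]
  have : update s k ([] : List A).tail = s := by
    rw [← h]; simp [h]
  rw [this]
  exact he

theorem popc_cons {k : ℕ} {f : Option A → Prog A} {a : A} {l : List A} (h : s k = a :: l)
    (hr : Run (f (some a)) (update s k l) s' t) : Run (.popc k f) s s' (t + 1) := by
  obtain ⟨t', ht, he⟩ := hr
  refine ⟨t' + 1, by omega, .popc k f s s' t' ?_⟩
  rw [h]
  exact he

theorem seq (h₁ : Run p s s₁ t) (h₂ : Run q s₁ s' u) : Run (.seq p q) s s' (t + u) := by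
  obtain ⟨t', ht, he⟩ := h₁
  obtain ⟨u', hu, he'⟩ := h₂
  exact ⟨t' + u', by omega, .seq p q s s₁ s' t' u' he he'⟩

theorem whl_done {k : ℕ} (h : s k = []) : Run (.whl k p) s s 1 :=
  ⟨1, le_rfl, .whl_done k p s h⟩

theorem whl_step {k : ℕ} (h : s k ≠ []) (h₁ : Run p s s₁ t) (h₂ : Run (.whl k p) s₁ s' u) :
    Run (.whl k p) s s' (t + u + 1) := by
  obtain ⟨t', ht, he⟩ := h₁
  obtain ⟨u', hu, he'⟩ := h₂
  exact ⟨t' + u' + 1, by omega, .whl_step k p s s₁ s' t' u' h he he'⟩

end Run

/-! ### Basic programs -/

section Basic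

variable {A : Type}

/-- Move register `a` to register `b`, reversing it. -/
def moveRev (a b : ℕ) : Prog A :=
  .whl a (.popc a fun o => match o with
    | none => .skip
    | some x => .push b x)

theorem below_moveRev {a b N : ℕ} (ha : a < N) (hb : b < N) :
    Below (moveRev a b : Prog A) N :=
  ⟨ha, ha, fun o => by cases o <;> simp [Below, hb]⟩

theorem run_moveRev {a b : ℕ} (hab : a ≠ b) (l : List A) : ∀ (s : St A), s a = l →
    Run (moveRev a b) s (update (update s a []) b (l.reverse ++ s b)) (3 * l.length + 1) := by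
  induction l with
  | nil =>
    intro s h
    refine (Run.whl_done h).cast ?_ (by simp)
    funext i
    simp only [update_apply]
    split_ifs with h1 h2 <;> simp_all
  | cons x l ih =>
    intro s h
    have h1 : Run (.push b x) (update s a l) (update (update s a l) b (x :: s b)) 1 := by
      refine (Run.push b x _).cast ?_ le_rfl
      rw [update_of_ne hab.symm]
    refine (Run.whl_step (by simp [h]) (Run.popc_cons h h1) (ih _ ?_)).cast ?_ ?_
    · rw [update_of_ne hab, update_self]
    · funext i
      simp only [update_apply]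
      split_ifs with h1 h2 <;> simp_all
    · simp; omega

/-- Move register `a` to both registers `b` and `c`, reversing. -/
def moveRev₂ (a b c : ℕ) : Prog A :=
  .whl a (.popc a fun o => match o with
    | none => .skip
    | some x => .seq (.push b x) (.push c x))

theorem below_moveRev₂ {a b c N : ℕ} (ha : a < N) (hb : b < N) (hc : c < N) :
    Below (moveRev₂ a b c : Prog A) N :=
  ⟨ha, ha, fun o => by cases o <;> simp [Below, hb, hc]⟩

theorem run_moveRev₂ {a b c : ℕ} (hab : a ≠ b) (hac : a ≠ c) (hbc : b ≠ c) (l : List A) :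
    ∀ (s : St A), s a = l → Run (moveRev₂ a b c) s
      (update (update (update s a []) b (l.reverse ++ s b)) c (l.reverse ++ s c))
      (4 * l.length + 1) := by
  induction l with
  | nil =>
    intro s h
    refine (Run.whl_done h).cast ?_ (by simp)
    funext i
    simp only [update_apply]
    split_ifs with h1 h2 <;> simp_all
  | cons x l ih =>
    intro s h
    have h1 : Run (.seq (.push b x) (.push c x)) (update s a l)
        (update (update (update s a l) b (x :: s b)) c (x :: s c)) 2 := by
      refine ((Run.push b x _).seq (Run.push c x _)).cast ?_ le_rfl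
      funext i
      simp only [update_apply]
      split_ifs with h1 h2 <;> simp_all
    refine (Run.whl_step (by simp [h]) (Run.popc_cons h h1) (ih _ ?_)).cast ?_ ?_
    · rw [update_of_ne hac, update_of_ne hab, update_self]
    · funext i
      simp only [update_apply]
      split_ifs with h1 h2 <;> simp_all
    · simp; omega

/-- Save a reversed copy of register `a` in register `b`, using register `c` as workspace. -/
def save (a b c : ℕ) : Prog A := .seq (moveRev₂ a b c) (moveRev c a)

theorem below_save {a b c N : ℕ} (ha : a < N) (hb : b < N) (hc : c < N) :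
    Below (save a b c : Prog A) N :=
  ⟨below_moveRev₂ ha hb hc, below_moveRev hc ha⟩

theorem run_save {a b c : ℕ} (hab : a ≠ b) (hac : a ≠ c) (hbc : b ≠ c) (s : St A)
    (hc : s c = []) : Run (save a b c) s (update s b ((s a).reverse ++ s b))
      (7 * (s a).length + 2) := by
  refine ((run_moveRev₂ hab hac hbc _ s rfl).seq (run_moveRev hac.symm (s a).reverse _ ?_)).cast
    ?_ ?_
  · rw [update_self, hc, List.append_nil]
  · funext i
    simp only [update_apply]
    split_ifs with h1 h2 <;> simp_all
  · simp; omega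

/-- Empty register `a`. -/
def clear (a : ℕ) : Prog A := .whl a (.popc a fun _ => .skip)

theorem below_clear {a N : ℕ} (ha : a < N) : Below (clear a : Prog A) N :=
  ⟨ha, ha, fun _ => trivial⟩

theorem run_clear {a : ℕ} (l : List A) : ∀ (s : St A), s a = l →
    Run (clear a) s (update s a []) (3 * l.length + 1) := by
  induction l with
  | nil =>
    intro s h
    refine (Run.whl_done h).cast ?_ (by simp)
    funext i
    simp only [update_apply]
    split_ifs with h1 <;> simp_all
  | cons x l ih =>
    intro s h
    refine (Run.whl_step (by simp [h]) (Run.popc_cons h (Run.skip _)) (ih _ ?_)).cast ?_ ?_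
    · rw [update_self]
    · simp
    · simp; omega

/-- Push a fixed list on register `a`. -/
def pushList (a : ℕ) : List A → Prog A
  | [] => .skip
  | x :: l => .seq (pushList a l) (.push a x)

theorem below_pushList {a N : ℕ} (ha : a < N) (l : List A) : Below (pushList a l) N := by
  induction l with
  | nil => trivial
  | cons x l ih => exact ⟨ih, ha⟩

theorem run_pushList {a : ℕ} (l : List A) : ∀ (s : St A),
    Run (pushList a l) s (update s a (l ++ s a)) (l.length + 1) := by
  induction l with
  | nil =>
    intro s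
    exact (Run.skip s).cast (by simp) (by simp)
  | cons x l ih =>
    intro s
    exact ((ih s).seq (Run.push a x _)).cast (by simp) (by simp)

end Basic

end Pool.Agent.Lib.MP_fe081e_lc.PT
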