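import Pool.Agent.Lib.MP_fe081e_lc.PT.Lang

/-!
# Polynomial-time functions on binary trees
-/

set_option linter.unusedSimpArgs false

namespace Pool.Agent.Lib.MP_fe081e_lc.PT

open Turing Function

/-- Binary trees, the universal data type. -/
inductive T : Type
  | nil : T
  | node : T → T → T
  deriving DecidableEq

namespace T

/-- Number of internal nodes. -/
def size : T → ℕ
  | nil => 0
  | node l r => 1 + l.size + r.size

@[simp] theorem size_nil : size nil = 0 := rfl
@[simp] theorem size_node (l r : T) : size (node l r) = 1 + l.size + r.size := rfl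

/-- Preorder word of a tree over symbols `z` (leaf) and `o` (node). -/
def word {A : Type} (z o : A) : T → List A
  | nil => [z]
  | node l r => o :: (l.word z o ++ r.word z o)

@[simp] theorem length_word {A : Type} (z o : A) (x : T) :
    (x.word z o).length = 2 * x.size + 1 := by
  induction x with
  | nil => rfl
  | node l r ihl ihr => simp [word, ihl, ihr]; ring

theorem word_ne_nil {A : Type} (z o : A) (x : T) : x.word z o ≠ [] := by
  cases x <;> simp [word]

/-- Left subtree (`nil` for a leaf). -/
def left : T → T
  | nil => nil
  | node l _ => l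

/-- Right subtree (`nil` for a leaf). -/
def right : T → T
  | nil => nil
  | node _ r => r

/-- Case distinction on leaf/node. -/
def ifnil {α : Type*} : T → α → α → α
  | nil, a, _ => a
  | node _ _, _, b => b

end T

theorem peval_mono (P : Polynomial ℕ) {a b : ℕ} (h : a ≤ b) : P.eval a ≤ P.eval b := by
  rw [Polynomial.eval_eq_sum, Polynomial.eval_eq_sum]
  exact Finset.sum_le_sum fun i _ => Nat.mul_le_mul_left _ (Nat.pow_le_pow_left h i)

/-- The program `p` with registers below `k` computes `f` in time `P`. -/
def Computes {A : Type} (z o : A) (p : Prog A) (k : ℕ) (P : Polynomial ℕ) (f : T → T) : Prop :=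
  0 < k ∧ Below p k ∧ ∀ (x : T) (s : St A), s 0 = x.word z o → (∀ i, 0 < i → i < k → s i = []) →
    Run p s (update s 0 ((f x).word z o)) (P.eval x.size)

/-- Polynomial-time functions on trees. -/
def FP (f : T → T) : Prop :=
  (∃ Q : Polynomial ℕ, ∀ x, (f x).size ≤ Q.eval x.size) ∧
    ∀ (A : Type) (z o : A), z ≠ o → ∃ (p : Prog A) (k : ℕ) (P : Polynomial ℕ),
      Computes z o p k P f

namespace FP

open Polynomial in
theorem id : FP (fun x => x) := by
  refine ⟨⟨X, fun x => by simp⟩, fun A z o _ => ⟨.skip, 1, 1, Nat.one_pos, trivial, ?_⟩⟩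
  intro x s h _
  refine (Run.skip s).cast ?_ (by simp)
  rw [← h, update_eq_self]

open Polynomial in
theorem const (c : T) : FP (fun _ => c) := by
  refine ⟨⟨C c.size, fun x => by simp⟩, fun A z o _ =>
    ⟨.seq (clear 0) (pushList 0 (c.word z o)), 1, C 6 * X + C (2 * c.size + 6), Nat.one_pos,
      ⟨below_clear Nat.one_pos, below_pushList Nat.one_pos _⟩, ?_⟩⟩
  intro x s h _
  refine ((run_clear _ s h).seq (run_pushList (c.word z o) _)).cast ?_ ?_
  · simp
  · simp
    omega

theorem comp {f g : T → T} (hf : FP f) (hg : FP g) : FP (fun x => f (g x)) := by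
  obtain ⟨⟨Qf, hQf⟩, hf⟩ := hf
  obtain ⟨⟨Qg, hQg⟩, hg⟩ := hg
  refine ⟨⟨Qf.comp Qg, fun x => ?_⟩, fun A z o hzo => ?_⟩
  · rw [Polynomial.eval_comp]
    exact (hQf _).trans (peval_mono _ (hQg x))
  · obtain ⟨pf, kf, Pf, hkf, hbf, hrf⟩ := hf A z o hzo
    obtain ⟨pg, kg, Pg, hkg, hbg, hrg⟩ := hg A z o hzo
    refine ⟨.seq pg pf, max kf kg, Pg + Pf.comp Qg, lt_max_of_lt_left hkf,
      ⟨hbg.mono (le_max_right _ _), hbf.mono (le_max_left _ _)⟩, fun x s h hs => ?_⟩
    have h1 := hrg x s h (fun i h0 hi => hs i h0 (lt_max_of_lt_right hi))
    have h2 := hrf (g x) (update s 0 ((g x).word z o)) (update_self _ _ _)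
      (fun i h0 hi => by
        rw [update_of_ne h0.ne']
        exact hs i h0 (lt_max_of_lt_left hi))
    refine (h1.seq h2).cast (by simp) ?_
    simp only [Polynomial.eval_add, Polynomial.eval_comp]
    exact Nat.add_le_add_left (peval_mono _ (hQg x)) _

open Polynomial in
theorem pair {f g : T → T} (hf : FP f) (hg : FP g) : FP (fun x => T.node (f x) (g x)) := by
  obtain ⟨⟨Qf, hQf⟩, hf⟩ := hf
  obtain ⟨⟨Qg, hQg⟩, hg⟩ := hg
  refine ⟨⟨1 + Qf + Qg, fun x => ?_⟩, fun A z o hzo => ?_⟩
  · simp only [T.size_node, eval_add, eval_one]
    have := hQf x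
    have := hQg x
    omega
  · obtain ⟨pf, kf, Pf, hkf, hbf, hrf⟩ := hf A z o hzo
    obtain ⟨pg, kg, Pg, hkg, hbg, hrg⟩ := hg A z o hzo
    obtain ⟨K, hK⟩ : ∃ K, K = max kf kg := ⟨_, rfl⟩
    have hfK : kf ≤ K := by omega
    have hgK : kg ≤ K := by omega
    have hK0 : 0 < K := by omega
    refine ⟨.seq (save 0 K (K + 1)) <| .seq pg <| .seq (moveRev 0 (K + 1)) <|
      .seq (moveRev K 0) <| .seq pf <| .seq (moveRev 0 K) <| .seq (moveRev (K + 1) 0) <|
      .seq (moveRev K 0) (.push 0 o), K + 2,
      C 100 * (1 + X + Pf + Pg + Qf + Qg), by omega, ?_, fun x s h hs => ?_⟩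
    · refine ⟨below_save (by omega) (by omega) (by omega), hbg.mono (by omega),
        below_moveRev (by omega) (by omega), below_moveRev (by omega) (by omega),
        hbf.mono (by omega), below_moveRev (by omega) (by omega),
        below_moveRev (by omega) (by omega), below_moveRev (by omega) (by omega), ?_⟩
      show 0 < K + 2
      omega
    · have n1 : K ≠ 0 := by omega
      have n2 : K + 1 ≠ 0 := by omega
      have n3 : K ≠ K + 1 := by omega
      have sK : s K = [] := hs K (by omega) (by omega)
      have sK1 : s (K + 1) = [] := hs (K + 1) (by omega) (by omega)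
      -- the sequence of memories
      let s1 := update s K (x.word z o).reverse
      let s2 := update s1 0 ((g x).word z o)
      let s3 := update (update s2 0 []) (K + 1) ((g x).word z o).reverse
      let s4 := update (update s3 K []) 0 (x.word z o)
      let s5 := update s4 0 ((f x).word z o)
      let s6 := update (update s5 0 []) K ((f x).word z o).reverse
      let s7 := update (update s6 (K + 1) []) 0 ((g x).word z o)
      let s8 := update (update s7 K []) 0 ((f x).word z o ++ (g x).word z o)
      have r1 : Run (save 0 K (K + 1)) s s1 (7 * (2 * x.size + 1) + 2) := by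
        refine (run_save n1.symm n2.symm n3 s sK1).cast ?_ ?_
        · rw [h, sK, List.append_nil]
        · rw [h, T.length_word]
      have r2 : Run pg s1 s2 (Pg.eval x.size) := by
        refine hrg x s1 ?_ ?_
        · simp only [s1]; rw [update_of_ne n1.symm, h]
        · intro i h0 hi
          simp only [s1]
          rw [update_of_ne (by omega)]
          exact hs i h0 (by omega)
      have r3 : Run (moveRev 0 (K + 1)) s2 s3 (3 * (2 * (g x).size + 1) + 1) := by
        refine (run_moveRev n2.symm ((g x).word z o) s2 ?_).cast ?_ ?_
        · simp [s2]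
        · simp [s3, s2, s1, n1, n2, n3, n3.symm, sK1]
        · simp
      have r4 : Run (moveRev K 0) s3 s4 (3 * (2 * x.size + 1) + 1) := by
        refine (run_moveRev n1 (x.word z o).reverse s3 ?_).cast ?_ ?_
        · simp [s3, s2, s1, n1, n2, n3, n3.symm]
        · simp [s4, s3, s2, s1, n1, n2, n3, n3.symm, n1.symm, n2.symm]
        · simp
      have r5 : Run pf s4 s5 (Pf.eval x.size) := by
        refine hrf x s4 ?_ ?_
        · simp [s4]
        · intro i h0 hi
          have i1 : i ≠ 0 := by omega
          have i2 : i ≠ K := by omega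
          have i3 : i ≠ K + 1 := by omega
          simp only [s4, s3, s2, s1]
          simp only [update_of_ne i1, update_of_ne i2, update_of_ne i3]
          exact hs i h0 (by omega)
      have r6 : Run (moveRev 0 K) s5 s6 (3 * (2 * (f x).size + 1) + 1) := by
        refine (run_moveRev n1.symm ((f x).word z o) s5 ?_).cast ?_ ?_
        · simp [s5]
        · simp [s6, s5, s4, s3, s2, s1, n1, n2, n3, n3.symm, n1.symm, n2.symm]
        · simp
      have r7 : Run (moveRev (K + 1) 0) s6 s7 (3 * (2 * (g x).size + 1) + 1) := by
        refine (run_moveRev n2 ((g x).word z o).reverse s6 ?_).cast ?_ ?_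
        · simp [s6, s5, s4, s3, s2, s1, n1, n2, n3, n3.symm, n1.symm, n2.symm]
        · simp [s7, s6, s5, s4, s3, s2, s1, n1, n2, n3, n3.symm, n1.symm, n2.symm]
        · simp
      have r8 : Run (moveRev K 0) s7 s8 (3 * (2 * (f x).size + 1) + 1) := by
        refine (run_moveRev n1 ((f x).word z o).reverse s7 ?_).cast ?_ ?_
        · simp [s7, s6, s5, s4, s3, s2, s1, n1, n2, n3, n3.symm, n1.symm, n2.symm]
        · simp [s8, s7, s6, s5, s4, s3, s2, s1, n1, n2, n3, n3.symm, n1.symm, n2.symm]
        · simp
      refine (r1.seq <| r2.seq <| r3.seq <| r4.seq <| r5.seq <| r6.seq <| r7.seq <|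
        r8.seq (Run.push 0 o s8)).cast ?_ ?_
      · funext i
        simp only [s8, s7, s6, s5, s4, s3, s2, s1, update_apply]
        split_ifs <;> simp_all [T.word]
      · have := hQf x
        have := hQg x
        simp only [eval_add, eval_one, eval_mul, eval_X, eval_C]
        omega

/-! ### Subtrees -/

open Classical in
/-- One parsing step: the input is in `0`, the reversed output goes to `1`, and `2` counts the
trees that are still to be read. -/
noncomputable def parseBody {A : Type} (z o : A) : Prog A :=
  .popc 0 fun a => match a with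
    | none => .skip
    | some a => .seq (.push 1 a) (if a = o then .push 2 z else .popc 2 fun _ => .skip)

theorem below_parseBody {A : Type} (z o : A) : Below (parseBody z o) 3 := by
  refine ⟨by omega, fun a => ?_⟩
  cases a with
  | none => trivial
  | some a =>
    refine ⟨by show 1 < 3; omega, ?_⟩
    split_ifs
    · show 2 < 3; omega
    · exact ⟨by omega, fun _ => trivial⟩

theorem run_parse {A : Type} (z o : A) (hzo : z ≠ o) (t : T) :
    ∀ (rest b cs : List A) (c : A) (s s' : St A) (u : ℕ), s 0 = t.word z o ++ rest → s 1 = b →
      s 2 = c :: cs →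
      Run (.whl 2 (parseBody z o))
        (update (update (update s 0 rest) 1 ((t.word z o).reverse ++ b)) 2 cs) s' u →
      Run (.whl 2 (parseBody z o)) s s' (u + 5 * (2 * t.size + 1)) := by
  induction t with
  | nil =>
    intro rest b cs c s s' u h0 h1 h2 hr
    have e1 : Run (parseBody z o) s
        (update (update (update s 0 rest) 1 ((T.nil.word z o).reverse ++ b)) 2 cs) 4 := by
      refine (Run.popc_cons (a := z) (l := rest) (by simpa [T.word] using h0)
        ((Run.push 1 z _).seq (t := 1) (u := 2) ?_)).mono (by omega)
      rw [if_neg hzo]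
      refine (Run.popc_cons (a := c) (l := cs) (by simp [h2]) (Run.skip _)).cast ?_ (by omega)
      funext i
      simp only [update_apply]
      split_ifs <;> simp_all [T.word]
    exact (Run.whl_step (by simp [h2]) e1 hr).mono (by simp; omega)
  | node l r ihl ihr =>
    intro rest b cs c s s' u h0 h1 h2 hr
    let s1 := update (update (update s 0 (l.word z o ++ (r.word z o ++ rest))) 1 (o :: b)) 2
      (z :: c :: cs)
    have e1 : Run (parseBody z o) s s1 3 := by
      refine (Run.popc_cons (a := o) (l := l.word z o ++ (r.word z o ++ rest))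
        (by simpa [T.word] using h0)
        ((Run.push 1 o _).seq (t := 1) (u := 1) ?_)).mono (by omega)
      rw [if_pos rfl]
      refine (Run.push 2 z _).cast ?_ (by omega)
      funext i
      simp only [s1, update_apply]
      split_ifs <;> simp_all [T.word]
    have e3 := ihr rest ((l.word z o).reverse ++ (o :: b)) cs c
      (update (update (update s1 0 (r.word z o ++ rest)) 1 ((l.word z o).reverse ++ (o :: b))) 2
        (c :: cs)) s' u (by simp [s1]) (by simp [s1]) (by simp [s1]) (by
        convert hr using 1
        funext i
        simp only [s1, update_apply]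
        split_ifs <;> simp_all [T.word])
    have e2 := ihl (r.word z o ++ rest) (o :: b) (c :: cs) z s1 s' _ (by simp [s1]) (by simp [s1])
      (by simp [s1]) e3
    exact (Run.whl_step (by simp [h2]) e1 e2).mono (by simp; omega)

/-- Parsing a whole tree from register `0`. -/
theorem run_parse' {A : Type} (z o : A) (hzo : z ≠ o) (t : T) (rest : List A) (s : St A)
    (h0 : s 0 = t.word z o ++ rest) (h1 : s 1 = []) (h2 : s 2 = []) :
    Run (.seq (.push 2 z) (.whl 2 (parseBody z o))) s
      (update (update s 0 rest) 1 (t.word z o).reverse) (2 + 5 * (2 * t.size + 1)) := by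
  refine ((Run.push 2 z _).seq (run_parse z o hzo t rest [] [] z _ _ 1 (by simp [h0])
    (by simp [h1]) (by simp [h2]) ((Run.whl_done (by simp)).cast (s₁ := update (update s 0 rest) 1
      (t.word z o).reverse) ?_ le_rfl))).mono (by omega)
  funext i
  simp only [update_apply]
  split_ifs <;> simp_all

open Polynomial in
open Classical in
theorem right : FP T.right := by
  refine ⟨⟨X, fun x => by cases x <;> simp [T.right]⟩, fun A z o hzo => ?_⟩
  refine ⟨.popc 0 fun a => if a = some o then
    .seq (.seq (.push 2 z) (.whl 2 (parseBody z o))) (clear 1) else .push 0 z, 3,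
    C 20 * X + C 30, by omega, ⟨by omega, fun a => ?_⟩, fun x s h hs => ?_⟩
  · beta_reduce
    split_ifs
    · refine ⟨⟨by show 2 < 3; omega, ⟨by omega, below_parseBody z o⟩⟩, below_clear (by omega)⟩
    · show 0 < 3; omega
  · have s1 : s 1 = [] := hs 1 (by omega) (by omega)
    have s2 : s 2 = [] := hs 2 (by omega) (by omega)
    cases x with
    | nil =>
      refine (Run.popc_cons (a := z) (l := []) (t := 1) (by simpa [T.word] using h) ?_).mono
        (by simp)
      rw [if_neg (by simpa using hzo)]
      exact (Run.push 0 z _).cast (by simp [T.right, T.word]) (by omega)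
    | node l r =>
      have e1 := run_parse' z o hzo l (r.word z o) (update s 0 (l.word z o ++ r.word z o))
        (by simp) (by simp [s1]) (by simp [s2])
      have e2 := e1.seq (run_clear (a := 1) (l.word z o).reverse _ (by simp))
      refine (Run.popc_cons (a := o) (l := l.word z o ++ r.word z o)
        (t := 2 + 5 * (2 * l.size + 1) + (3 * (l.word z o).reverse.length + 1))
        (by simpa [T.word] using h) ?_).cast (s' := update s 0 (r.word z o)) (by simp [T.right]) ?_
      · rw [if_pos rfl]
        refine e2.cast ?_ le_rfl
        funext i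
        simp only [update_apply]
        split_ifs <;> simp_all [T.word, T.right]
      · simp; omega

open Polynomial in
open Classical in
theorem left : FP T.left := by
  refine ⟨⟨X, fun x => by cases x <;> simp [T.left]; omega⟩, fun A z o hzo => ?_⟩
  refine ⟨.popc 0 fun a => if a = some o then
    .seq (.seq (.push 2 z) (.whl 2 (parseBody z o))) (.seq (clear 0) (moveRev 1 0))
      else .push 0 z, 3,
    C 100 * X + C 100, by omega, ⟨by omega, fun a => ?_⟩, fun x s h hs => ?_⟩
  · beta_reduce
    split_ifs
    · refine ⟨⟨by show 2 < 3; omega, ⟨by omega, below_parseBody z o⟩⟩, below_clear (by omega),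
        below_moveRev (by omega) (by omega)⟩
    · show 0 < 3; omega
  · have s1 : s 1 = [] := hs 1 (by omega) (by omega)
    have s2 : s 2 = [] := hs 2 (by omega) (by omega)
    cases x with
    | nil =>
      refine (Run.popc_cons (a := z) (l := []) (t := 1) (by simpa [T.word] using h) ?_).mono
        (by simp)
      rw [if_neg (by simpa using hzo)]
      exact (Run.push 0 z _).cast (by simp [T.left, T.word]) (by omega)
    | node l r =>
      have e1 := run_parse' z o hzo l (r.word z o) (update s 0 (l.word z o ++ r.word z o))
        (by simp) (by simp [s1]) (by simp [s2])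
      have e2 := e1.seq ((run_clear (a := 0) (r.word z o) _ (by simp)).seq
        (run_moveRev (b := 0) one_ne_zero (l.word z o).reverse _ (by simp)))
      refine (Run.popc_cons (a := o) (l := l.word z o ++ r.word z o)
        (t := 2 + 5 * (2 * l.size + 1) + (3 * (r.word z o).length + 1 +
          (3 * (l.word z o).reverse.length + 1)))
        (by simpa [T.word] using h) ?_).cast (s' := update s 0 (l.word z o)) (by simp [T.left]) ?_
      · rw [if_pos rfl]
        refine e2.cast ?_ le_rfl
        funext i
        simp only [update_apply]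
        split_ifs <;> simp_all [T.word, T.right]
      · simp; omega

/-- Restoring a saved input. -/
theorem run_restore {A : Type} {K : ℕ} (hK : 0 < K) (s : St A) (l w : List A) (h0 : s 0 = l)
    (hs : s K = []) :
    Run (.seq (clear 0) (moveRev K 0)) (update (update s K l.reverse) 0 w) s
      (3 * w.length + 3 * l.length + 2) := by
  have n1 : K ≠ 0 := by omega
  refine ((run_clear (a := 0) w _ (by simp)).seq
        (run_moveRev (b := 0) n1 l.reverse _ (by simp [n1]))).cast ?_ (by simp; omega)
  funext i
  simp only [update_apply]
  split_ifs <;> simp_all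

open Polynomial in
open Classical in
/-- Case distinction. -/
theorem ifnil {c f g : T → T} (hc : FP c) (hf : FP f) (hg : FP g) :
    FP (fun x => (c x).ifnil (f x) (g x)) := by
  obtain ⟨⟨Qc, hQc⟩, hc⟩ := hc
  obtain ⟨⟨Qf, hQf⟩, hf⟩ := hf
  obtain ⟨⟨Qg, hQg⟩, hg⟩ := hg
  refine ⟨⟨Qf + Qg, fun x => ?_⟩, fun A z o hzo => ?_⟩
  · have h1 := hQf x
    have h2 := hQg x
    simp only [eval_add]
    cases c x <;> simp only [T.ifnil] <;> omega
  · obtain ⟨pc, kc, Pc, hkc, hbc, hrc⟩ := hc A z o hzo
    obtain ⟨pf, kf, Pf, hkf, hbf, hrf⟩ := hf A z o hzo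
    obtain ⟨pg, kg, Pg, hkg, hbg, hrg⟩ := hg A z o hzo
    obtain ⟨K, hK⟩ : ∃ K, K = max (max kc kf) kg := ⟨_, rfl⟩
    have hcK : kc ≤ K := by omega
    have hfK : kf ≤ K := by omega
    have hgK : kg ≤ K := by omega
    have hK0 : 0 < K := by omega
    refine ⟨.seq (save 0 K (K + 1)) <| .seq pc <| .popc 0 fun a =>
      .seq (.seq (clear 0) (moveRev K 0)) <| if a = some o then pg else pf, K + 2,
        C 100 * (1 + X + Pc + Qc + Pf + Pg), by omega, ?_, fun x s h hs => ?_⟩
    · refine ⟨below_save (by omega) (by omega) (by omega), hbc.mono (by omega), by omega,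
        fun a => ⟨⟨below_clear (by omega), below_moveRev (by omega) (by omega)⟩, ?_⟩⟩
      split_ifs
      · exact hbg.mono (by omega)
      · exact hbf.mono (by omega)
    · have n1 : K ≠ 0 := by omega
      have n2 : K + 1 ≠ 0 := by omega
      have n3 : K ≠ K + 1 := by omega
      have sK : s K = [] := hs K (by omega) (by omega)
      have sK1 : s (K + 1) = [] := hs (K + 1) (by omega) (by omega)
      have hQx := hQc x
      have r1 : Run (save 0 K (K + 1)) s (update s K (x.word z o).reverse)
          (7 * (2 * x.size + 1) + 2) := by
        refine (run_save n1.symm n2.symm n3 s sK1).cast ?_ ?_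
        · rw [h, sK, List.append_nil]
        · rw [h, T.length_word]
      have r2 : Run pc (update s K (x.word z o).reverse)
          (update (update s K (x.word z o).reverse) 0 ((c x).word z o)) (Pc.eval x.size) := by
        refine hrc x _ ?_ ?_
        · rw [update_of_ne n1.symm, h]
        · intro i h0 hi
          rw [update_of_ne (by omega)]
          exact hs i h0 (by omega)
      rcases hcx : c x with _ | ⟨l, r⟩
      · have r3 := Run.popc_cons (a := z) (l := []) (k := 0)
          (f := fun a => .seq (.seq (clear 0) (moveRev K 0)) <| if a = some o then pg else pf)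
          (s := update (update s K (x.word z o).reverse) 0 ((c x).word z o))
          (s' := update s 0 ((f x).word z o))
          (t := 3 * ([] : List A).length + 3 * (x.word z o).length + 2 + Pf.eval x.size)
          (by simp [hcx, T.word]) (by
            rw [if_neg (by simpa using hzo)]
            refine (((run_restore hK0 s (x.word z o) [] h sK).cast rfl le_rfl).seq
              (hrf x s h (fun i h0 hi => hs i h0 (by omega)))).cast rfl le_rfl |> fun e => ?_
            rw [update_idem]
            exact e)
        refine (r1.seq (r2.seq r3)).cast (by beta_reduce; rw [hcx]; rfl) ?_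
        simp
        omega
      · have r3 := Run.popc_cons (a := o) (l := l.word z o ++ r.word z o) (k := 0)
          (f := fun a => .seq (.seq (clear 0) (moveRev K 0)) <| if a = some o then pg else pf)
          (s := update (update s K (x.word z o).reverse) 0 ((c x).word z o))
          (s' := update s 0 ((g x).word z o))
          (t := 3 * (l.word z o ++ r.word z o).length + 3 * (x.word z o).length + 2 +
            Pg.eval x.size)
          (by simp [hcx, T.word]) (by
            rw [if_pos rfl]
            refine (((run_restore hK0 s (x.word z o) (l.word z o ++ r.word z o) h sK).cast rfl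
              le_rfl).seq
              (hrg x s h (fun i h0 hi => hs i h0 (by omega)))).cast rfl le_rfl |> fun e => ?_
            rw [update_idem]
            exact e)
        refine (r1.seq (r2.seq r3)).cast (by beta_reduce; rw [hcx]; rfl) ?_
        rw [hcx] at hQx
        simp at hQx ⊢
        omega

open Classical in
theorem count_word {A : Type} (z o : A) (hzo : z ≠ o) (x : T) :
    (x.word z o).count o = x.size := by
  induction x with
  | nil => simp [T.word, hzo]
  | node l r ihl ihr => simp [T.word, ihl, ihr]; ring

open Classical in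
theorem run_iter {A : Type} (z o : A) {p : Prog A} {k K : ℕ} {P : Polynomial ℕ} {f : T → T}
    (hc : Computes z o p k P f) (hkK : k ≤ K) (B : ℕ) (w : List A) :
    ∀ (y : T) (s : St A), (∀ i ≤ w.count o, P.eval (f^[i] y).size ≤ B) → s 0 = y.word z o →
      s K = w → (∀ i, 0 < i → i < k → s i = []) →
      Run (.whl K (.popc K fun a => if a = some o then p else .skip)) s
        (update (update s K []) 0 ((f^[w.count o] y).word z o)) ((B + 3) * w.length + 1) := by
  obtain ⟨hk0, hb, hr⟩ := hc
  have n1 : K ≠ 0 := by omega
  induction w with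
  | nil =>
    intro y s _ h0 hK hs
    refine (Run.whl_done hK).cast ?_ (by simp)
    simp only [List.count_nil, iterate_zero, id_eq]
    rw [← h0, update_comm n1, update_eq_self, ← hK, update_eq_self]
  | cons a w ih =>
    intro y s hB h0 hK hs
    by_cases ha : a = o
    · have hcnt : (a :: w).count o = w.count o + 1 := by simp [ha]
      rw [hcnt] at hB ⊢
      have e1 : Run p (update s K w) (update (update s K w) 0 ((f y).word z o)) (P.eval y.size) := by
        refine hr y _ (by simp [n1.symm, h0]) (fun i h1 h2 => ?_)
        rw [update_of_ne (by omega)]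
        exact hs i h1 h2
      have e2 : Run (.popc K fun a => if a = some o then p else .skip) s
          (update (update s K w) 0 ((f y).word z o)) (P.eval y.size + 1) := by
        refine Run.popc_cons (a := a) (l := w) hK ?_
        rw [if_pos (by rw [ha])]
        exact e1
      have e3 := ih (f y) (update (update s K w) 0 ((f y).word z o)) (fun i hi => by
          have := hB (i + 1) (by omega)
          rwa [iterate_succ_apply] at this) (by simp) (by simp [n1]) (fun i h1 h2 => by
          rw [update_of_ne (by omega), update_of_ne (by omega)]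
          exact hs i h1 h2)
      refine (Run.whl_step (by simp [hK]) e2 e3).cast ?_ ?_
      · rw [iterate_succ_apply]
        funext i
        simp only [update_apply]
        split_ifs <;> simp_all
      · have := hB 0 (by omega)
        simp only [iterate_zero, id_eq] at this
        simp only [List.length_cons]
        nlinarith
    · have hcnt : (a :: w).count o = w.count o := by simp [ha]
      rw [hcnt] at hB ⊢
      have e2 : Run (.popc K fun a => if a = some o then p else .skip) s (update s K w) 2 := by
        refine Run.popc_cons (a := a) (l := w) hK ?_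
        rw [if_neg (by simpa using ha)]
        exact Run.skip _
      have e3 := ih y (update s K w) hB (by simp [n1.symm, h0]) (by simp) (fun i h1 h2 => by
          rw [update_of_ne (by omega)]
          exact hs i h1 h2)
      refine (Run.whl_step (by simp [hK]) e2 e3).cast ?_ ?_
      · funext i
        simp only [update_apply]
        split_ifs <;> simp_all
      · simp only [List.length_cons]
        nlinarith

open Polynomial in
open Classical in
/-- Iteration: `f` is applied `size (n x)` times, starting from `g x`. -/
theorem iter {n f g : T → T} (hn : FP n) (hf : FP f) (hg : FP g)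
    (hbd : ∃ B : Polynomial ℕ, ∀ x, ∀ i ≤ (n x).size, (f^[i] (g x)).size ≤ B.eval x.size) :
    FP (fun x => f^[(n x).size] (g x)) := by
  obtain ⟨⟨Qn, hQn⟩, hn⟩ := hn
  obtain ⟨-, hf⟩ := hf
  obtain ⟨⟨Qg, hQg⟩, hg⟩ := hg
  obtain ⟨B, hB⟩ := hbd
  refine ⟨⟨B, fun x => hB x _ le_rfl⟩, fun A z o hzo => ?_⟩
  obtain ⟨pn, kn, Pn, hkn, hbn, hrn⟩ := hn A z o hzo
  obtain ⟨pf, kf, Pf, hkf, hbf, hrf⟩ := hf A z o hzo
  obtain ⟨pg, kg, Pg, hkg, hbg, hrg⟩ := hg A z o hzo
  obtain ⟨K, hK⟩ : ∃ K, K = max (max kn kf) kg := ⟨_, rfl⟩
  have hnK : kn ≤ K := by omega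
  have hfK : kf ≤ K := by omega
  have hgK : kg ≤ K := by omega
  have hK0 : 0 < K := by omega
  refine ⟨.seq (save 0 K (K + 1)) <| .seq pn <| .seq (moveRev 0 (K + 1)) <| .seq (moveRev K 0) <|
    .seq pg <| .whl (K + 1) <| .popc (K + 1) fun a => if a = some o then pf else .skip, K + 2,
      C 100 * (1 + X + Pn + Qn + Pg + (Pf.comp B + 1) * (Qn + 1)), by omega, ?_,
      fun x s h hs => ?_⟩
  · refine ⟨below_save (by omega) (by omega) (by omega), hbn.mono (by omega),
      below_moveRev (by omega) (by omega), below_moveRev (by omega) (by omega),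
      hbg.mono (by omega), by omega, by omega, fun a => ?_⟩
    beta_reduce
    split_ifs
    · exact hbf.mono (by omega)
    · trivial
  · have n1 : K ≠ 0 := by omega
    have n2 : K + 1 ≠ 0 := by omega
    have n3 : K ≠ K + 1 := by omega
    have sK : s K = [] := hs K (by omega) (by omega)
    have sK1 : s (K + 1) = [] := hs (K + 1) (by omega) (by omega)
    let s1 := update s K (x.word z o).reverse
    let s2 := update s1 0 ((n x).word z o)
    let s3 := update (update s2 0 []) (K + 1) ((n x).word z o).reverse
    let s4 := update (update s3 K []) 0 (x.word z o)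
    let s5 := update s4 0 ((g x).word z o)
    have r1 : Run (save 0 K (K + 1)) s s1 (7 * (2 * x.size + 1) + 2) := by
      refine (run_save n1.symm n2.symm n3 s sK1).cast ?_ ?_
      · rw [h, sK, List.append_nil]
      · rw [h, T.length_word]
    have r2 : Run pn s1 s2 (Pn.eval x.size) := by
      refine hrn x s1 ?_ ?_
      · simp only [s1]; rw [update_of_ne n1.symm, h]
      · intro i h0 hi
        simp only [s1]
        rw [update_of_ne (by omega)]
        exact hs i h0 (by omega)
    have r3 : Run (moveRev 0 (K + 1)) s2 s3 (3 * (2 * (n x).size + 1) + 1) := by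
      refine (run_moveRev n2.symm ((n x).word z o) s2 ?_).cast ?_ ?_
      · simp [s2]
      · simp [s3, s2, s1, n1, n2, n3, n3.symm, sK1]
      · simp
    have r4 : Run (moveRev K 0) s3 s4 (3 * (2 * x.size + 1) + 1) := by
      refine (run_moveRev n1 (x.word z o).reverse s3 ?_).cast ?_ ?_
      · simp [s3, s2, s1, n1, n2, n3, n3.symm]
      · simp [s4, s3, s2, s1, n1, n2, n3, n3.symm, n1.symm, n2.symm]
      · simp
    have r5 : Run pg s4 s5 (Pg.eval x.size) := by
      refine hrg x s4 ?_ ?_
      · simp [s4]
      · intro i h0 hi
        have i1 : i ≠ 0 := by omega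
        have i2 : i ≠ K := by omega
        have i3 : i ≠ K + 1 := by omega
        simp only [s4, s3, s2, s1]
        simp only [update_of_ne i1, update_of_ne i2, update_of_ne i3]
        exact hs i h0 (by omega)
    have hcnt : ((n x).word z o).reverse.count o = (n x).size := by
      rw [List.count_reverse, count_word z o hzo]
    have r6 := run_iter z o ⟨hkf, hbf, hrf⟩ (K := K + 1) (by omega) (Pf.eval (B.eval x.size))
      ((n x).word z o).reverse (g x) s5 (fun i hi => peval_mono _ (hB x i (hcnt ▸ hi)))
      (by simp [s5]) (by simp [s5, s4, s3, n2, n3.symm]) (fun i h0 hi => by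
        have i1 : i ≠ 0 := by omega
        have i2 : i ≠ K := by omega
        have i3 : i ≠ K + 1 := by omega
        simp only [s5, s4, s3, s2, s1]
        simp only [update_of_ne i1, update_of_ne i2, update_of_ne i3]
        exact hs i h0 (by omega))
    rw [hcnt] at r6
    refine (r1.seq <| r2.seq <| r3.seq <| r4.seq <| r5.seq r6).cast ?_ ?_
    · funext i
      simp only [s5, s4, s3, s2, s1, update_apply]
      split_ifs <;> simp_all [T.word]
    · have h1 := hQn x
      simp only [eval_add, eval_one, eval_mul, eval_X, eval_C, List.length_reverse,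
        T.length_word, eval_comp]
      have h2 : (Pf.eval (B.eval x.size) + 3) * (2 * (n x).size + 1) ≤
          6 * ((Pf.eval (B.eval x.size) + 1) * (Qn.eval x.size + 1)) := by
        nlinarith [Nat.zero_le (Pf.eval (B.eval x.size) * Qn.eval x.size),
          Nat.mul_le_mul_left (Pf.eval (B.eval x.size)) h1]
      omega

end FP

end Pool.Agent.Lib.MP_fe081e_lc.PT
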